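import Mathlib

/-!
# Deficiency of direct powers: definitions
-/

set_option autoImplicit false

open CategoryTheory

namespace Pool.Agent.H15.RQ

/-- `DefLE P k`: the deficiency of `P` is at most `k`, that is, every finite presentation of `P`
has at most `k` generators more than relators. -/
def DefLE (P : Type) [Group P] (k : ℤ) : Prop :=
  ∀ (m : ℕ) (R : Finset (FreeGroup (Fin m))),
    Nonempty (PresentedGroup (R : Set (FreeGroup (Fin m))) ≃* P) → (m : ℤ) - (R.card : ℤ) ≤ k

/-- `Tends G`: the deficiency of `G ^ n` tends to `-∞` (the conclusion of the question). -/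
def Tends (G : Type) [Group G] : Prop :=
  ∀ k : ℤ, ∃ N : ℕ, ∀ n : ℕ, N ≤ n → DefLE (Fin n → G) k

/-- `Superperfect G`: `G` is perfect and its second homology (its Schur multiplier) is trivial. -/
def Superperfect (G : Type) [Group G] : Prop :=
  commutator G = ⊤ ∧ Limits.IsZero (groupHomology (Rep.trivial ℤ G ℤ) 2)

end Pool.Agent.H15.RQ
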