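import Mathlib

/-!
A finite perfect group is the normal closure of one element.
-/

set_option autoImplicit false

open scoped commutatorElement

namespace Pool.Agent.H15.RQ

theorem exists_aux (n : ℕ) : ∀ (G : Type) [Group G] [Finite G], Nat.card G = n →
    commutator G = ⊤ → ∃ x : G, Subgroup.normalClosure ({x} : Set G) = ⊤ := by
  induction n using Nat.strong_induction_on with
  | _ n ih =>
  intro G _ _ hn hG
  classical
  rcases subsingleton_or_nontrivial G with hs | hs
  · exact ⟨1, Subsingleton.elim _ _⟩
  · -- a minimal normal subgroup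
    set s : Set (Subgroup G) := {N | N.Normal ∧ N ≠ ⊥} with hsdef
    have hsf : s.Finite := Set.toFinite s
    have hne : s.Nonempty := ⟨⊤, inferInstance, top_ne_bot⟩
    obtain ⟨N, hNmin⟩ := hsf.exists_minimal hne
    obtain ⟨hNn, hNb⟩ := hNmin.prop
    have hmin : ∀ M : Subgroup G, M.Normal → M ≤ N → ¬ N ≤ M → M = ⊥ := by
      intro M hM hMN hNM
      by_contra hMb
      exact hNM (hNmin.le_of_le ⟨hM, hMb⟩ hMN)
    -- the quotient
    have hcard : Nat.card (G ⧸ N) < n := by
      have h1 := Subgroup.card_eq_card_quotient_mul_card_subgroup N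
      have h2 : 1 < Nat.card N := by
        rw [Finite.one_lt_card_iff_nontrivial]
        exact (Subgroup.nontrivial_iff_ne_bot N).mpr hNb
      have h3 : 0 < Nat.card (G ⧸ N) := Nat.card_pos
      rw [← hn, h1]
      nlinarith
    have hperf : commutator (G ⧸ N) = ⊤ := by
      have h := Subgroup.map_commutator (⊤ : Subgroup G) ⊤ (QuotientGroup.mk' N)
      have h1 : Subgroup.map (QuotientGroup.mk' N) ⊤ = ⊤ :=
        Subgroup.map_top_of_surjective _ (QuotientGroup.mk'_surjective N)
      rw [h1] at h
      rw [commutator_def, ← h, ← commutator_def, hG, h1]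
    obtain ⟨xb, hxb⟩ := ih _ hcard (G ⧸ N) rfl hperf
    obtain ⟨x, rfl⟩ := QuotientGroup.mk'_surjective N xb
    -- a normal closure of a lift together with `N` is everything
    have hsup : ∀ z : G, QuotientGroup.mk' N z = QuotientGroup.mk' N x →
        Subgroup.normalClosure ({z} : Set G) ⊔ N = ⊤ := by
      intro z hz
      have h1 := Subgroup.map_normalClosure ({z} : Set G) (QuotientGroup.mk' N)
        (QuotientGroup.mk'_surjective N)
      rw [Set.image_singleton, hz, hxb] at h1
      have h2 := Subgroup.comap_map_eq (QuotientGroup.mk' N) (Subgroup.normalClosure ({z} : Set G))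
      rw [h1, Subgroup.comap_top, QuotientGroup.ker_mk'] at h2
      exact h2.symm
    by_cases hNA : N ≤ Subgroup.normalClosure ({x} : Set G)
    · refine ⟨x, ?_⟩
      have := hsup x rfl
      rwa [sup_eq_left.mpr hNA] at this
    · set A := Subgroup.normalClosure ({x} : Set G) with hA
      have hAn : A.Normal := Subgroup.normalClosure_normal
      have hAN : A ⊓ N = ⊥ := hmin (A ⊓ N) inferInstance inf_le_right
        (fun h => hNA (le_inf_iff.mp h).1)
      have hcomm : ∀ a ∈ A, ∀ m ∈ N, Commute a m := fun a ha m hm =>
        Subgroup.commute_of_normal_of_disjoint A N hAn hNn (disjoint_iff.mpr hAN) a m ha hm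
      have hdec : ∀ g : G, ∃ a ∈ A, ∃ m ∈ N, a * m = g := by
        intro g
        have h1 : g ∈ A ⊔ N := by rw [hsup x rfl]; exact Subgroup.mem_top g
        exact Subgroup.mem_sup_of_normal_right.mp h1
      -- `N` is not abelian
      have hnab : ∃ y ∈ N, ∃ m ∈ N, ¬ Commute y m := by
        by_contra hcon
        push Not at hcon
        apply hNA
        have h1 : commutator G ≤ A := by
          rw [commutator_def, Subgroup.commutator_le]
          intro g _ h _
          obtain ⟨a, ha, m, hm, rfl⟩ := hdec g
          obtain ⟨b, hb, k, hk, rfl⟩ := hdec h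
          have e : QuotientGroup.mk' A ⁅a * m, b * k⁆ = 1 := by
            rw [map_commutatorElement, commutatorElement_eq_one_iff_mul_comm]
            have ea : QuotientGroup.mk' A a = 1 := (QuotientGroup.eq_one_iff _).mpr ha
            have eb : QuotientGroup.mk' A b = 1 := (QuotientGroup.eq_one_iff _).mpr hb
            rw [map_mul, map_mul, ea, eb, one_mul, one_mul, ← map_mul, ← map_mul,
              (hcon m hm k hk).eq]
          exact (QuotientGroup.eq_one_iff _).mp e
        rw [hG] at h1
        exact le_top.trans h1
      obtain ⟨y, hy, m, hm, hym⟩ := hnab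
      refine ⟨x * y, ?_⟩
      set B := Subgroup.normalClosure ({x * y} : Set G) with hB
      have hBn : B.Normal := Subgroup.normalClosure_normal
      have hBN : B ⊔ N = ⊤ := by
        apply hsup
        rw [map_mul]
        have : QuotientGroup.mk' N y = 1 := (QuotientGroup.eq_one_iff _).mpr hy
        rw [this, mul_one]
      have hNB : N ≤ B := by
        by_contra hcon
        have hBNb : B ⊓ N = ⊥ := hmin (B ⊓ N) inferInstance inf_le_right
          (fun h => hcon (le_inf_iff.mp h).1)
        have h1 : Commute (x * y) m :=
          Subgroup.commute_of_normal_of_disjoint B N hBn hNn (disjoint_iff.mpr hBNb) _ _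
            (Subgroup.subset_normalClosure rfl) hm
        have h2 : Commute x m := hcomm x (Subgroup.subset_normalClosure rfl) m hm
        apply hym
        have h3 : y = x⁻¹ * (x * y) := by group
        rw [h3]
        exact (h2.inv_left).mul_left h1
      rwa [sup_eq_left.mpr hNB] at hBN

/-- (a): a finite perfect group is the normal closure of one element. -/
theorem exists_normalClosure_eq_top {G : Type} [Group G] [Finite G] (hG : commutator G = ⊤) :
    ∃ x : G, Subgroup.normalClosure ({x} : Set G) = ⊤ :=
  exists_aux (Nat.card G) G rfl hG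

end Pool.Agent.H15.RQ
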