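import Pool.Agent.H72.DEF.Sec

/-!
The quotient of a perfect group by `K = [K₀, G]`.
-/

set_option autoImplicit false

open scoped commutatorElement

namespace Pool.Agent.H15.RQ

open Pool.Agent.H72.DEF

/-- quotients of perfect groups are perfect. -/
theorem commutator_quotient {G : Type} [Group G] (hG : commutator G = ⊤) (K : Subgroup G)
    [K.Normal] : commutator (G ⧸ K) = ⊤ := by
  have h := Subgroup.map_commutator (⊤ : Subgroup G) ⊤ (QuotientGroup.mk' K)
  have h1 : Subgroup.map (QuotientGroup.mk' K) ⊤ = ⊤ :=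
    Subgroup.map_top_of_surjective _ (QuotientGroup.mk'_surjective K)
  rw [h1] at h
  rw [commutator_def, ← h, ← commutator_def, hG, h1]

/-- `[K, G] = K` for `K = [K₀, G]`, `G` perfect. -/
theorem commutator_top_eq {G : Type} [Group G] (hG : commutator G = ⊤) (K₀ : Subgroup G)
    [K₀.Normal] : ⁅⁅K₀, (⊤ : Subgroup G)⁆, (⊤ : Subgroup G)⁆ = ⁅K₀, (⊤ : Subgroup G)⁆ := by
  set K : Subgroup G := ⁅K₀, (⊤ : Subgroup G)⁆ with hK
  have hKn : K.Normal := inferInstance
  set L : Subgroup G := ⁅K, (⊤ : Subgroup G)⁆ with hL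
  have hLn : L.Normal := inferInstance
  apply le_antisymm
  · exact Subgroup.commutator_le_left K ⊤
  · rw [hK, Subgroup.commutator_le]
    intro k hk x _
    -- `x ↦ [k, x]` is a homomorphism modulo `L` with central values
    have hmem : ∀ y : G, ⁅k, y⁆ ∈ K := fun y =>
      Subgroup.commutator_mem_commutator hk (Subgroup.mem_top y)
    have hcent : ∀ (c : G), c ∈ K → ∀ z : G ⧸ L, z * QuotientGroup.mk' L c =
        QuotientGroup.mk' L c * z := by
      intro c hc z
      obtain ⟨w, rfl⟩ := QuotientGroup.mk'_surjective L z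
      have h1 : QuotientGroup.mk' L ⁅c, w⁆ = 1 := (QuotientGroup.eq_one_iff _).mpr
        (Subgroup.commutator_mem_commutator hc (Subgroup.mem_top w))
      rw [map_commutatorElement, commutatorElement_eq_one_iff_mul_comm] at h1
      exact h1.symm
    have h2 := perfect_kill' hG (fun y : G => QuotientGroup.mk' L ⁅k, y⁆) (by
      intro y z
      have e1 : ⁅k, y * z⁆ = ⁅k, y⁆ * (y * ⁅k, z⁆ * y⁻¹) := by
        simp only [commutatorElement_def]
        group
      show QuotientGroup.mk' L ⁅k, y * z⁆ = _
      rw [e1, map_mul, map_mul, map_mul, hcent _ (hmem z), mul_assoc (QuotientGroup.mk' L ⁅k, z⁆),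
        ← map_mul (QuotientGroup.mk' L) y y⁻¹, mul_inv_cancel, map_one, mul_one])
      (fun y z => hcent _ (hmem z) _) x
    exact (QuotientGroup.eq_one_iff _).mp h2

/-- sections pass to the quotient by a normal subgroup `K = [K, G]`. -/
theorem sec_quotient {G : Type} [Group G] (hS : Sec G) (K : Subgroup G) [K.Normal]
    (hK : ⁅K, (⊤ : Subgroup G)⁆ = K) : Sec (G ⧸ K) := by
  intro W _ p hp hker
  -- the pull back
  set E : Subgroup (W × G) :=
    { carrier := {x | p x.1 = QuotientGroup.mk' K x.2}
      mul_mem' := by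
        intro a b ha hb
        show p (a.1 * b.1) = QuotientGroup.mk' K (a.2 * b.2)
        rw [map_mul, map_mul]
        exact congrArg₂ (· * ·) ha hb
      one_mem' := by
        show p 1 = QuotientGroup.mk' K 1
        rw [map_one, map_one]
      inv_mem' := by
        intro a ha
        show p a.1⁻¹ = QuotientGroup.mk' K a.2⁻¹
        rw [map_inv, map_inv]
        exact congrArg _ ha } with hE
  set q : E →* G := (MonoidHom.snd W G).comp E.subtype with hq
  have hqs : Function.Surjective q := by
    intro g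
    obtain ⟨w, hw⟩ := hp (QuotientGroup.mk' K g)
    exact ⟨⟨(w, g), hw⟩, rfl⟩
  have hqk : q.ker ≤ Subgroup.center E := by
    intro a ha
    have ha2 : (a : W × G).2 = 1 := ha
    have ha1 : (a : W × G).1 ∈ p.ker := by
      rw [MonoidHom.mem_ker]
      have := a.2
      have h3 : p (a : W × G).1 = QuotientGroup.mk' K (a : W × G).2 := this
      rw [h3, ha2, map_one]
    have ha3 := hker ha1
    rw [Subgroup.mem_center_iff] at ha3 ⊢
    intro b
    apply Subtype.ext
    apply Prod.ext
    · exact ha3 _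
    · show (b : W × G).2 * (a : W × G).2 = (a : W × G).2 * (b : W × G).2
      rw [ha2, mul_one, one_mul]
  obtain ⟨s, hs⟩ := hS E q hqs hqk
  set u : G →* W := (MonoidHom.fst W G).comp (E.subtype.comp s) with hu
  have hpu : ∀ g, p (u g) = QuotientGroup.mk' K g := by
    intro g
    have h4 : p (s g : W × G).1 = QuotientGroup.mk' K (s g : W × G).2 := (s g).2
    have h5 : (s g : W × G).2 = g := hs g
    rw [h5] at h4
    exact h4
  have hKu : K ≤ u.ker := by
    rw [← hK, Subgroup.commutator_le]
    intro k hk g _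
    rw [MonoidHom.mem_ker, map_commutatorElement, commutatorElement_eq_one_iff_mul_comm]
    have h6 : u k ∈ p.ker := by
      rw [MonoidHom.mem_ker, hpu]
      exact (QuotientGroup.eq_one_iff _).mpr hk
    have h7 := hker h6
    rw [Subgroup.mem_center_iff] at h7
    exact (h7 _).symm
  refine ⟨QuotientGroup.lift K u hKu, fun t => ?_⟩
  obtain ⟨g, rfl⟩ := QuotientGroup.mk'_surjective K t
  exact hpu g

/-- the centre of `G / [K₀, G]` is `K₀ / [K₀, G]` if `G / K₀` is simple, and the quotient by the
centre is `G / K₀`. -/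
theorem quotient_center {G : Type} [Group G] (hG : commutator G = ⊤) (K₀ : Subgroup G)
    [K₀.Normal] [IsSimpleGroup (G ⧸ K₀)] :
    Nonempty (((G ⧸ (⁅K₀, (⊤ : Subgroup G)⁆ : Subgroup G)) ⧸
      Subgroup.center (G ⧸ (⁅K₀, (⊤ : Subgroup G)⁆ : Subgroup G))) ≃* (G ⧸ K₀)) := by
  set K : Subgroup G := ⁅K₀, (⊤ : Subgroup G)⁆ with hK
  have hKK₀ : K ≤ K₀ := Subgroup.commutator_le_left K₀ ⊤
  set f : G ⧸ K →* G ⧸ K₀ := QuotientGroup.map K K₀ (MonoidHom.id G) hKK₀ with hf
  have hfm : ∀ g : G, f (QuotientGroup.mk' K g) = QuotientGroup.mk' K₀ g := fun g => rfl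
  have hfs : Function.Surjective f := by
    intro t
    obtain ⟨g, rfl⟩ := QuotientGroup.mk'_surjective K₀ t
    exact ⟨QuotientGroup.mk' K g, rfl⟩
  have hnc : Subgroup.center (G ⧸ K₀) = ⊥ := by
    rcases (inferInstance : (Subgroup.center (G ⧸ K₀)).Normal).eq_bot_or_eq_top with h | h
    · exact h
    · exfalso
      have h1 := commutator_quotient hG K₀
      have h2 : commutator (G ⧸ K₀) = ⊥ := by
        rw [commutator_def, Subgroup.commutator_eq_bot_iff_le_centralizer]
        intro x _
        rw [Subgroup.mem_centralizer_iff]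
        intro y _
        have h3 : x ∈ Subgroup.center (G ⧸ K₀) := by rw [h]; exact Subgroup.mem_top x
        exact (Subgroup.mem_center_iff.mp h3) y
      rw [h1] at h2
      obtain ⟨x, hx⟩ := exists_ne (1 : G ⧸ K₀)
      have h4 : x ∈ (⊤ : Subgroup (G ⧸ K₀)) := Subgroup.mem_top x
      rw [h2, Subgroup.mem_bot] at h4
      exact hx h4
  have hker : Subgroup.center (G ⧸ K) = f.ker := by
    apply le_antisymm
    · intro z hz
      have h5 : f z ∈ Subgroup.center (G ⧸ K₀) := by
        rw [Subgroup.mem_center_iff] at hz ⊢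
        intro t
        obtain ⟨y, rfl⟩ := hfs t
        rw [← map_mul, ← map_mul, hz]
      rw [hnc, Subgroup.mem_bot] at h5
      exact h5
    · intro z hz
      obtain ⟨k, rfl⟩ := QuotientGroup.mk'_surjective K z
      have h6 : k ∈ K₀ := (QuotientGroup.eq_one_iff _).mp (show QuotientGroup.mk' K₀ k = 1 from hz)
      rw [Subgroup.mem_center_iff]
      intro t
      obtain ⟨g, rfl⟩ := QuotientGroup.mk'_surjective K t
      have h7 : QuotientGroup.mk' K ⁅k, g⁆ = 1 := (QuotientGroup.eq_one_iff _).mpr
        (Subgroup.commutator_mem_commutator h6 (Subgroup.mem_top g))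
      rw [map_commutatorElement, commutatorElement_eq_one_iff_mul_comm] at h7
      exact h7.symm
  exact ⟨(QuotientGroup.quotientMulEquivOfEq hker).trans
    (QuotientGroup.quotientKerEquivOfSurjective f hfs)⟩

end Pool.Agent.H15.RQ
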