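import Pool.Agent.H15.RQ.Pres
import Pool.Agent.H15.RQ.Quot
import Pool.Agent.H15.RQ.One
import Pool.Agent.H9.RQ.H2

/-!
The reduction to the groups which are simple modulo their centre.
-/

set_option autoImplicit false

open scoped commutatorElement

namespace Pool.Agent.H15.RQ

open Pool.Agent.H72.DEF CategoryTheory

/-- (1) -/
theorem defLE_mono {G : Type} [Group G] [Finite G] (hG : commutator G = ⊤) {n N : ℕ} (hn : n ≤ N)
    {k : ℤ} (h : DefLE (Fin n → G) k) : DefLE (Fin N → G) (k + 1) := by
  obtain ⟨g, hg⟩ := exists_normalClosure_eq_top hG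
  exact defLE_pi_restrict hG g hg hn h

/-- the dichotomy -/
theorem bounded_of_not_tends {G : Type} [Group G] [Finite G] (hG : commutator G = ⊤)
    (h : ¬ Tends G) : ∃ C : ℤ, ∀ n : ℕ, ∃ (m : ℕ) (R : Finset (FreeGroup (Fin m))),
      Nonempty (PresentedGroup (R : Set (FreeGroup (Fin m))) ≃* (Fin n → G)) ∧
        -C ≤ (m : ℤ) - (R.card : ℤ) := by
  unfold Tends at h
  push Not at h
  obtain ⟨k, hk⟩ := h
  refine ⟨-k + 1, fun n => ?_⟩
  obtain ⟨N, hN, h1⟩ := hk n
  by_contra hcon
  push Not at hcon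
  apply h1
  have h2 : DefLE (Fin n → G) (k - 1) := by
    intro m R hR
    have h3 := hcon m R hR
    linarith
  have h4 := defLE_mono hG hN h2
  have h5 : k - 1 + 1 = k := by ring
  rwa [h5] at h4

/-- (2) for perfect normal subgroups: one relator is enough. -/
theorem defLE_perfect_quotient {G : Type} [Group G] [Finite G] (K : Subgroup G) [K.Normal]
    (hKp : commutator K = ⊤) (n : ℕ) {k : ℤ}
    (h : DefLE (Fin n → G ⧸ K) k) : DefLE (Fin n → G) (k + 1) := by
  classical
  obtain ⟨x, hx⟩ := exists_normalClosure_eq_top hKp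
  have h1 : Subgroup.normalClosure ((({(x : G)} : Finset G)) : Set G) = K := by
    rw [Finset.coe_singleton]
    apply le_antisymm
    · apply Subgroup.normalClosure_le_normal
      intro z hz
      rw [Set.mem_singleton_iff] at hz
      rw [hz]
      exact x.2
    · set H : Subgroup K := (Subgroup.normalClosure ({(x : G)} : Set G)).comap K.subtype with hH
      have hHn : H.Normal := Subgroup.normalClosure_normal.comap _
      have h2 : Subgroup.normalClosure ({x} : Set K) ≤ H := by
        apply Subgroup.normalClosure_le_normal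
        intro z hz
        rw [Set.mem_singleton_iff] at hz
        rw [hz]
        exact Subgroup.subset_normalClosure rfl
      intro k hk
      have h3 : (⟨k, hk⟩ : K) ∈ H := by
        apply h2
        rw [hx]
        exact Subgroup.mem_top _
      exact h3
  have h4 : ⁅K, (⊤ : Subgroup G)⁆ = K := by
    apply le_antisymm (Subgroup.commutator_le_left K ⊤)
    have h5 := Subgroup.map_commutator (⊤ : Subgroup K) ⊤ K.subtype
    rw [← commutator_def, hKp] at h5
    have h6 : Subgroup.map K.subtype ⊤ = K := by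
      rw [← MonoidHom.range_eq_map, Subgroup.range_subtype]
    rw [h6] at h5
    calc K = ⁅K, K⁆ := h5
      _ ≤ ⁅K, (⊤ : Subgroup G)⁆ := Subgroup.commutator_mono le_rfl le_top
  have h7 := defLE_pi_quotient K ({(x : G)} : Finset G) h1 h4 n h
  simpa using h7

/-- (3): comparison with a group which is simple modulo its centre. -/
theorem compare {G : Type} [Group G] [Finite G] (hG : commutator G = ⊤)
    (h2 : Limits.IsZero (groupHomology (Rep.trivial ℤ G ℤ) 2)) (K₀ : Subgroup G) [K₀.Normal]
    [IsSimpleGroup (G ⧸ K₀)] :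
    ∃ (Q : Type) (_ : Group Q) (_ : Finite Q) (c : ℕ), Nontrivial Q ∧ commutator Q = ⊤ ∧
      Limits.IsZero (groupHomology (Rep.trivial ℤ Q ℤ) 2) ∧
      Nonempty (Q ⧸ Subgroup.center Q ≃* G ⧸ K₀) ∧
      ∀ (n : ℕ) (k : ℤ), DefLE (Fin n → Q) k → DefLE (Fin n → G) (k + c) := by
  classical
  set K : Subgroup G := ⁅K₀, (⊤ : Subgroup G)⁆ with hK
  have hKn : K.Normal := inferInstance
  have hKK : ⁅K, (⊤ : Subgroup G)⁆ = K := commutator_top_eq hG K₀
  have hKK₀ : K ≤ K₀ := Subgroup.commutator_le_left K₀ ⊤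
  have := Fintype.ofFinite K
  have hnt : Nontrivial (G ⧸ K) := by
    have h3 : Nontrivial (G ⧸ K₀) := inferInstance
    exact (show Function.Surjective (QuotientGroup.map K K₀ (MonoidHom.id G) hKK₀) from by
      intro t
      obtain ⟨g, rfl⟩ := QuotientGroup.mk'_surjective K₀ t
      exact ⟨QuotientGroup.mk' K g, rfl⟩).nontrivial
  set T : Finset G := (K : Set G).toFinset with hT
  have hTK : Subgroup.normalClosure (T : Set G) = K := by
    rw [hT, Set.coe_toFinset]
    exact Subgroup.normalClosure_eq_self K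
  refine ⟨G ⧸ K, inferInstance, inferInstance, T.card, hnt, commutator_quotient hG K,
    Pool.Agent.H9.RQ.isZero_H2_of_sec (sec_quotient (sec_of_H2 hG h2) K hKK),
    quotient_center hG K₀, fun n k h => defLE_pi_quotient K T hTK hKK n h⟩

/-- a nontrivial finite group has a simple quotient. -/
theorem exists_simple_quotient (G : Type) [Group G] [Finite G] [Nontrivial G] :
    ∃ K₀ : Subgroup G, ∃ _ : K₀.Normal, IsSimpleGroup (G ⧸ K₀) := by
  classical
  set s : Set (Subgroup G) := {N | N.Normal ∧ N ≠ ⊤} with hs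
  obtain ⟨K₀, hK⟩ := (Set.toFinite s).exists_maximal ⟨⊥, inferInstance, bot_ne_top⟩
  obtain ⟨hKn, hKt⟩ := hK.prop
  refine ⟨K₀, hKn, ?_⟩
  have hnt : Nontrivial (G ⧸ K₀) := by
    rw [QuotientGroup.nontrivial_iff]
    exact hKt
  refine { toNontrivial := hnt, eq_bot_or_eq_top_of_normal := fun H hH => ?_ }
  by_cases h : H.comap (QuotientGroup.mk' K₀) = ⊤
  · right
    rw [eq_top_iff]
    intro x _
    obtain ⟨g, rfl⟩ := QuotientGroup.mk'_surjective K₀ x
    have : g ∈ H.comap (QuotientGroup.mk' K₀) := by rw [h]; exact Subgroup.mem_top g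
    exact this
  · left
    have h1 : K₀ ≤ H.comap (QuotientGroup.mk' K₀) := by
      intro g hg
      show QuotientGroup.mk' K₀ g ∈ H
      have h0 : QuotientGroup.mk' K₀ g = 1 := (QuotientGroup.eq_one_iff g).mpr hg
      rw [h0]
      exact H.one_mem
    have h2 : H.comap (QuotientGroup.mk' K₀) ≤ K₀ :=
      hK.le_of_ge ⟨hH.comap _, h⟩ h1
    rw [eq_bot_iff]
    intro x hx
    obtain ⟨g, rfl⟩ := QuotientGroup.mk'_surjective K₀ x
    rw [Subgroup.mem_bot]
    exact (QuotientGroup.eq_one_iff g).mpr (h2 hx)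

/-- (4): the question for all groups follows from the question for the groups which are simple
modulo their centre. -/
theorem reduction
    (H : ∀ (Q : Type) [Group Q] [Finite Q], Nontrivial Q → commutator Q = ⊤ →
      Limits.IsZero (groupHomology (Rep.trivial ℤ Q ℤ) 2) →
      IsSimpleGroup (Q ⧸ Subgroup.center Q) → Tends Q)
    (G : Type) [Group G] [Finite G] (hnt : Nontrivial G) (hG : commutator G = ⊤)
    (h2 : Limits.IsZero (groupHomology (Rep.trivial ℤ G ℤ) 2)) : Tends G := by
  obtain ⟨K₀, hK₀, hsimple⟩ := exists_simple_quotient G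
  obtain ⟨Q, _, _, c, h3, h4, h5, ⟨e⟩, h6⟩ := compare hG h2 K₀
  have hQ : IsSimpleGroup (Q ⧸ Subgroup.center Q) := by
    have : Nontrivial (Q ⧸ Subgroup.center Q) := e.toEquiv.nontrivial
    exact IsSimpleGroup.isSimpleGroup_of_surjective e.symm.toMonoidHom e.symm.surjective
  intro k
  obtain ⟨N, hN⟩ := H Q h3 h4 h5 hQ (k - c)
  refine ⟨N, fun n hn => ?_⟩
  have h7 := h6 n (k - c) (hN n hn)
  have h8 : k - (c : ℤ) + c = k := by ring
  rwa [h8] at h7

end Pool.Agent.H15.RQ
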