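import Pool.Agent.H15.RQ.Defs

/-!
Presentations of quotients of direct powers: adding relators.
-/

set_option autoImplicit false

open scoped commutatorElement

namespace Pool.Agent.H15.RQ

/-- Adding relators to a presentation. -/
theorem add_relators {P Q : Type} [Group P] [Group Q] (π : P →* Q)
    (hπ : Function.Surjective π) (T : Finset P) (hT : π.ker = Subgroup.normalClosure (T : Set P))
    {m : ℕ} (R : Finset (FreeGroup (Fin m)))
    (hR : Nonempty (PresentedGroup (R : Set (FreeGroup (Fin m))) ≃* P)) :
    ∃ R' : Finset (FreeGroup (Fin m)), R'.card ≤ R.card + T.card ∧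
      Nonempty (PresentedGroup (R' : Set (FreeGroup (Fin m))) ≃* Q) := by
  classical
  obtain ⟨e⟩ := hR
  set f : FreeGroup (Fin m) →* P :=
    e.toMonoidHom.comp (PresentedGroup.mk (R : Set (FreeGroup (Fin m)))) with hf
  have hfs : Function.Surjective f :=
    e.surjective.comp (QuotientGroup.mk'_surjective _)
  have hfk : f.ker = Subgroup.normalClosure (R : Set (FreeGroup (Fin m))) := by
    ext x
    rw [MonoidHom.mem_ker, hf]
    show e (PresentedGroup.mk _ x) = 1 ↔ _
    rw [map_eq_one_iff e e.injective]
    exact QuotientGroup.eq_one_iff x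
  set w : P → FreeGroup (Fin m) := Function.surjInv hfs with hw
  have hfw : ∀ p, f (w p) = p := Function.surjInv_eq hfs
  refine ⟨R ∪ T.image w, (Finset.card_union_le _ _).trans
    (Nat.add_le_add_left Finset.card_image_le _), ?_⟩
  set N' := Subgroup.normalClosure ((R ∪ T.image w : Finset (FreeGroup (Fin m))) :
    Set (FreeGroup (Fin m))) with hN'
  set g : FreeGroup (Fin m) →* Q := π.comp f with hg
  have hgs : Function.Surjective g := hπ.comp hfs
  have hker : g.ker = N' := by
    apply le_antisymm
    · intro x hx
      have h1 : f x ∈ π.ker := hx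
      rw [hT] at h1
      have h2 : (T : Set P) = f '' ((T.image w : Finset (FreeGroup (Fin m))) :
          Set (FreeGroup (Fin m))) := by
        rw [Finset.coe_image, ← Set.image_comp]
        have : f ∘ w = id := funext hfw
        rw [this, Set.image_id]
      have h3 := Subgroup.map_normalClosure ((T.image w : Finset (FreeGroup (Fin m))) :
          Set (FreeGroup (Fin m))) f hfs
      rw [h2, ← h3] at h1
      obtain ⟨y, hy, hyx⟩ := h1
      have h4 : y ∈ N' := by
        refine Subgroup.normalClosure_mono ?_ hy
        rw [Finset.coe_union]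
        exact Set.subset_union_right
      have h5 : x * y⁻¹ ∈ f.ker := by
        rw [MonoidHom.mem_ker, map_mul, map_inv, hyx, mul_inv_cancel]
      rw [hfk] at h5
      have h6 : x * y⁻¹ ∈ N' := by
        refine Subgroup.normalClosure_mono ?_ h5
        rw [Finset.coe_union]
        exact Set.subset_union_left
      have h7 := N'.mul_mem h6 h4
      simpa using h7
    · apply Subgroup.normalClosure_le_normal
      intro x hx
      rw [Finset.coe_union, Set.mem_union] at hx
      rcases hx with hx | hx
      · have h1 : x ∈ f.ker := by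
          rw [hfk]
          exact Subgroup.subset_normalClosure hx
        show π (f x) = 1
        rw [MonoidHom.mem_ker.mp h1, map_one]
      · rw [Finset.coe_image] at hx
        obtain ⟨t, ht, rfl⟩ := hx
        show π (f (w t)) = 1
        rw [hfw]
        have : t ∈ π.ker := by
          rw [hT]
          exact Subgroup.subset_normalClosure ht
        exact this
  exact ⟨(QuotientGroup.quotientMulEquivOfEq hker.symm).trans
    (QuotientGroup.quotientKerEquivOfSurjective g hgs)⟩

/-- `def P ≤ def Q + c` if `Q` is the quotient of `P` by the normal closure of `c` elements. -/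
theorem defLE_of_quotient {P Q : Type} [Group P] [Group Q] (π : P →* Q)
    (hπ : Function.Surjective π) (T : Finset P) (hT : π.ker = Subgroup.normalClosure (T : Set P))
    {k : ℤ} (h : DefLE Q k) : DefLE P (k + T.card) := by
  intro m R hR
  obtain ⟨R', h1, h2⟩ := add_relators π hπ T hT R hR
  have h3 := h m R' h2
  have h4 : (R'.card : ℤ) ≤ R.card + T.card := by exact_mod_cast h1
  linarith

/-- The direct power of a normal subgroup `K = [K, G]` is the normal closure of the elements which
are constant on the given set of coordinates. -/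
theorem mem_closure_const {G ι : Type} [Group G] [Finite ι] (S : Set ι) (T : Set G)
    (hK : ⁅Subgroup.normalClosure T, (⊤ : Subgroup G)⁆ = Subgroup.normalClosure T) (x : ι → G)
    (h1 : ∀ i ∈ S, x i ∈ Subgroup.normalClosure T) (h2 : ∀ i ∉ S, x i = 1) :
    x ∈ Subgroup.normalClosure ((fun (t : G) (i : ι) => S.mulIndicator (fun _ => t) i) '' T) := by
  classical
  refine Subgroup.pi_mem_of_mulSingle_mem x fun i => ?_
  set M := Subgroup.normalClosure
    ((fun (t : G) (i : ι) => S.mulIndicator (fun _ => t) i) '' T) with hM
  by_cases hi : i ∈ S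
  · set Mi : Subgroup G := M.comap (MonoidHom.mulSingle (fun _ : ι => G) i) with hMi
    have hMn : Mi.Normal := Subgroup.normalClosure_normal.comap _
    have hcomm : ∀ t ∈ T, ∀ g : G, ⁅t, g⁆ ∈ Mi := by
      intro t ht g
      rw [hMi, Subgroup.mem_comap]
      set ct : ι → G := fun i => S.mulIndicator (fun _ => t) i with hct
      have e1 : ct ∈ M := Subgroup.subset_normalClosure ⟨t, ht, rfl⟩
      have e2 : MonoidHom.mulSingle (fun _ : ι => G) i ⁅t, g⁆ =
          ct * ((Pi.mulSingle i g : ι → G) * ct⁻¹ * (Pi.mulSingle i g : ι → G)⁻¹) := by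
        funext j
        show (Pi.mulSingle i ⁅t, g⁆ : ι → G) j = ct j * ((Pi.mulSingle i g : ι → G) j *
          (ct j)⁻¹ * ((Pi.mulSingle i g : ι → G) j)⁻¹)
        by_cases hj : j = i
        · subst hj
          rw [Pi.mulSingle_eq_same, Pi.mulSingle_eq_same, commutatorElement_def]
          have : ct j = t := by
            rw [hct]
            exact Set.mulIndicator_of_mem hi _
          rw [this]
          group
        · rw [Pi.mulSingle_eq_of_ne hj, Pi.mulSingle_eq_of_ne hj]
          group
      rw [e2]
      exact M.mul_mem e1 (Subgroup.normalClosure_normal.conj_mem _ (M.inv_mem e1) _)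
    set H : Subgroup G := (Subgroup.center (G ⧸ Mi)).comap (QuotientGroup.mk' Mi) with hH
    have hHn : H.Normal := Subgroup.Normal.comap inferInstance _
    have hTH : T ⊆ (H : Set G) := by
      intro t ht
      show QuotientGroup.mk' Mi t ∈ Subgroup.center (G ⧸ Mi)
      rw [Subgroup.mem_center_iff]
      intro q
      obtain ⟨g, rfl⟩ := QuotientGroup.mk'_surjective Mi q
      have e3 : QuotientGroup.mk' Mi ⁅t, g⁆ = 1 := (QuotientGroup.eq_one_iff _).mpr (hcomm t ht g)
      rw [map_commutatorElement, commutatorElement_eq_one_iff_mul_comm] at e3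
      exact e3.symm
    have hKH : Subgroup.normalClosure T ≤ H := Subgroup.normalClosure_le_normal hTH
    have hKM : Subgroup.normalClosure T ≤ Mi := by
      rw [← hK, Subgroup.commutator_le]
      intro k hk g _
      have e4 : QuotientGroup.mk' Mi k ∈ Subgroup.center (G ⧸ Mi) := hKH hk
      rw [Subgroup.mem_center_iff] at e4
      have e5 : QuotientGroup.mk' Mi ⁅k, g⁆ = 1 := by
        rw [map_commutatorElement, commutatorElement_eq_one_iff_mul_comm]
        exact (e4 _).symm
      exact (QuotientGroup.eq_one_iff _).mp e5
    exact hKM (h1 i hi)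
  · rw [h2 i hi, Pi.mulSingle_one]
    exact M.one_mem

/-- (2): killing a normal subgroup `K = [K, G]`, the normal closure of the finite set `T`. -/
theorem defLE_pi_quotient {G : Type} [Group G] (K : Subgroup G) [K.Normal] (T : Finset G)
    (hT : Subgroup.normalClosure (T : Set G) = K) (hK : ⁅K, (⊤ : Subgroup G)⁆ = K) (n : ℕ) {k : ℤ}
    (h : DefLE (Fin n → G ⧸ K) k) : DefLE (Fin n → G) (k + T.card) := by
  classical
  set π : (Fin n → G) →* (Fin n → G ⧸ K) :=
    MonoidHom.mk' (fun x i => QuotientGroup.mk' K (x i)) (fun x y => by
      funext i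
      exact map_mul _ _ _) with hπ
  have hs : Function.Surjective π := by
    intro y
    choose x hx using fun i => QuotientGroup.mk'_surjective K (y i)
    exact ⟨x, funext hx⟩
  set T' : Finset (Fin n → G) := T.image (fun (t : G) (i : Fin n) =>
    (Set.univ : Set (Fin n)).mulIndicator (fun _ => t) i) with hT'
  have hker : π.ker = Subgroup.normalClosure (T' : Set (Fin n → G)) := by
    apply le_antisymm
    · intro x hx
      rw [hT', Finset.coe_image]
      refine mem_closure_const Set.univ (T : Set G) (by rw [hT]; exact hK) x ?_ ?_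
      · intro i _
        rw [hT]
        have h1 : QuotientGroup.mk' K (x i) = 1 := congrFun (MonoidHom.mem_ker.mp hx) i
        exact (QuotientGroup.eq_one_iff _).mp h1
      · intro i hi
        exact absurd (Set.mem_univ i) hi
    · apply Subgroup.normalClosure_le_normal
      intro x hx
      rw [hT', Finset.coe_image] at hx
      obtain ⟨t, ht, rfl⟩ := hx
      show π _ = 1
      funext i
      show QuotientGroup.mk' K ((Set.univ : Set (Fin n)).mulIndicator (fun _ => t) i) = 1
      rw [Set.mulIndicator_of_mem (Set.mem_univ i)]
      refine (QuotientGroup.eq_one_iff _).mpr ?_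
      rw [← hT]
      exact Subgroup.subset_normalClosure ht
  have h2 := defLE_of_quotient π hs T' hker h
  intro m R hR
  have h3 := h2 m R hR
  have h4 : (T'.card : ℤ) ≤ T.card := by exact_mod_cast Finset.card_image_le
  linarith

/-- (1): `def (G ^ N) ≤ def (G ^ n) + 1` for `n ≤ N`, `G` perfect and normally generated by one
element. -/
theorem defLE_pi_restrict {G : Type} [Group G] (hG : commutator G = ⊤) (g : G)
    (hg : Subgroup.normalClosure ({g} : Set G) = ⊤) {n N : ℕ} (hn : n ≤ N) {k : ℤ}
    (h : DefLE (Fin n → G) k) : DefLE (Fin N → G) (k + 1) := by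
  classical
  set π : (Fin N → G) →* (Fin n → G) :=
    MonoidHom.mk' (fun x i => x (Fin.castLE hn i)) (fun x y => rfl) with hπ
  have hs : Function.Surjective π := by
    intro y
    refine ⟨fun j => if h : (j : ℕ) < n then y ⟨j, h⟩ else 1, funext fun i => ?_⟩
    show (if h : ((Fin.castLE hn i : Fin N) : ℕ) < n then y ⟨_, h⟩ else 1) = y i
    rw [dif_pos (by simp)]
    rfl
  set S : Set (Fin N) := {j | n ≤ (j : ℕ)} with hS
  set T' : Finset (Fin N → G) := ({g} : Finset G).image (fun (t : G) (i : Fin N) =>
    S.mulIndicator (fun _ => t) i) with hT'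
  have hker : π.ker = Subgroup.normalClosure (T' : Set (Fin N → G)) := by
    apply le_antisymm
    · intro x hx
      rw [hT', Finset.coe_image]
      refine mem_closure_const S (({g} : Finset G) : Set G) ?_ x ?_ ?_
      · rw [Finset.coe_singleton, hg]
        exact hG
      · intro i _
        rw [Finset.coe_singleton, hg]
        exact Subgroup.mem_top _
      · intro i hi
        have hi' : (i : ℕ) < n := by
          by_contra hcon
          exact hi (not_lt.mp hcon)
        have h1 : x (Fin.castLE hn ⟨i, hi'⟩) = 1 :=
          congrFun (MonoidHom.mem_ker.mp hx) ⟨i, hi'⟩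
        have h2 : Fin.castLE hn ⟨i, hi'⟩ = i := Fin.ext rfl
        rwa [h2] at h1
    · apply Subgroup.normalClosure_le_normal
      intro x hx
      rw [hT', Finset.coe_image] at hx
      obtain ⟨t, ht, rfl⟩ := hx
      show π _ = 1
      funext i
      show S.mulIndicator (fun _ => t) (Fin.castLE hn i) = 1
      refine Set.mulIndicator_of_notMem ?_ _
      intro hcon
      have h3 : n ≤ ((Fin.castLE hn i : Fin N) : ℕ) := hcon
      have h4 := i.2
      simp at h3
      omega
  have h2 := defLE_of_quotient π hs T' hker h
  intro m R hR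
  have h3 := h2 m R hR
  have h4 : T'.card ≤ 1 := by
    rw [hT']
    exact (Finset.card_image_le).trans (by simp)
  have h5 : (T'.card : ℤ) ≤ 1 := by exact_mod_cast h4
  linarith

end Pool.Agent.H15.RQ
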